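import Mathlib

set_option autoImplicit false

open Filter Topology

namespace Pool.Agent.Results.MP_e9a5a5_pr.AllSolutions

/-- `(μ * F)(x) = (F (x - 1) + F (x + 1)) / 2` -/
noncomputable def conv (F : ℝ → ℝ) : ℝ → ℝ := fun x => (F (x - 1) + F (x + 1)) / 2

/-- one max step -/
noncomputable def Phi (F : ℝ → ℝ) : ℝ → ℝ := fun x => (conv F x) ^ 2

/-- one min step -/
noncomputable def Phi' (F : ℝ → ℝ) : ℝ → ℝ := fun x => 1 - (1 - conv F x) ^ 2

/-- the two-step map `Ψ = Φ ∘ Φ'` -/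
noncomputable def Psi (F : ℝ → ℝ) : ℝ → ℝ := Phi (Phi' F)

/-- `h(p) = 2 √p - p` -/
noncomputable def h (p : ℝ) : ℝ := 2 * √p - p

theorem Psi_apply (F : ℝ → ℝ) (x : ℝ) :
    Psi F x = (1 - (1 / 2) * (1 - (F (x - 2) + F x) / 2) ^ 2
      - (1 / 2) * (1 - (F x + F (x + 2)) / 2) ^ 2) ^ 2 := by
  have e1 : x - 1 - 1 = x - 2 := by ring
  have e2 : x - 1 + 1 = x := by ring
  have e3 : x + 1 - 1 = x := by ring
  have e4 : x + 1 + 1 = x + 2 := by ring
  simp only [Psi, Phi, Phi', conv, e1, e2, e3, e4]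
  ring

/-- the sequence form of the comparison: `α`, `β` run towards `-∞` -/
theorem compare (α β : ℕ → ℝ) (h0 : α 0 = β 0)
    (hα : ∀ k, 0 ≤ α k ∧ α k ≤ 1 / 16) (hβ : ∀ k, 0 ≤ β k ∧ β k ≤ 1 / 16)
    (ha : ∀ k, √(α (k + 1)) = 1 - (1 / 2) * (1 - (α (k + 2) + α (k + 1)) / 2) ^ 2
      - (1 / 2) * (1 - (α (k + 1) + α k) / 2) ^ 2)
    (hb : ∀ k, √(β (k + 1)) = 1 - (1 / 2) * (1 - (β (k + 2) + β (k + 1)) / 2) ^ 2
      - (1 / 2) * (1 - (β (k + 1) + β k) / 2) ^ 2)
    (hαl : Tendsto α atTop (𝓝 0)) (hβl : Tendsto β atTop (𝓝 0)) : α 1 = β 1 := by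
  have hmono : ∀ k, |α k - β k| ≤ |α (k + 1) - β (k + 1)| := by
    intro k
    induction k with
    | zero => rw [h0, sub_self, abs_zero]; exact abs_nonneg _
    | succ k ih =>
      have hA := ha k
      have hB := hb k
      have a0 := hα k
      have a1 := hα (k + 1)
      have a2 := hα (k + 2)
      have b0 := hβ k
      have b1 := hβ (k + 1)
      have b2 := hβ (k + 2)
      have e : k + 1 + 1 = k + 2 := rfl
      rw [e]
      have sa0 : 0 ≤ √(α (k + 1)) := Real.sqrt_nonneg _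
      have sb0 : 0 ≤ √(β (k + 1)) := Real.sqrt_nonneg _
      have sa1 : √(α (k + 1)) ≤ 1 / 4 := by
        rw [show (1 / 4 : ℝ) = √(1 / 16) by
          rw [show (1 / 16 : ℝ) = (1 / 4) ^ 2 by norm_num, Real.sqrt_sq (by norm_num)]]
        exact Real.sqrt_le_sqrt a1.2
      have sb1 : √(β (k + 1)) ≤ 1 / 4 := by
        rw [show (1 / 4 : ℝ) = √(1 / 16) by
          rw [show (1 / 16 : ℝ) = (1 / 4) ^ 2 by norm_num, Real.sqrt_sq (by norm_num)]]
        exact Real.sqrt_le_sqrt b1.2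
      have sa2 : √(α (k + 1)) ^ 2 = α (k + 1) := Real.sq_sqrt a1.1
      have sb2 : √(β (k + 1)) ^ 2 = β (k + 1) := Real.sq_sqrt b1.1
      set s := √(α (k + 1)) with hs
      set t := √(β (k + 1)) with ht
      set d0 := α k - β k with hd0
      set d1 := α (k + 1) - β (k + 1) with hd1
      set d2 := α (k + 2) - β (k + 2) with hd2
      set p := 1 - (α (k + 2) + α (k + 1) + β (k + 2) + β (k + 1)) / 4 with hp
      set q := 1 - (α (k + 1) + α k + β (k + 1) + β k) / 4 with hq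
      have hdiff : s - t = p * ((d2 + d1) / 2) + q * ((d1 + d0) / 2) := by
        rw [hA, hB, hp, hq, hd0, hd1, hd2]
        ring
      have hp0 : 0 ≤ p := by rw [hp]; linarith
      have hp1 : p ≤ 1 := by rw [hp]; linarith
      have hq0 : 0 ≤ q := by rw [hq]; linarith
      have hq1 : q ≤ 1 := by rw [hq]; linarith
      have hst : d1 = (s - t) * (s + t) := by
        rw [hd1, ← sa2, ← sb2]; ring
      have h1 : |d1| ≤ |s - t| * (1 / 2) := by
        rw [hst, abs_mul]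
        refine mul_le_mul_of_nonneg_left ?_ (abs_nonneg _)
        rw [abs_of_nonneg (by linarith)]
        linarith
      have h2 : |s - t| ≤ (|d2| + |d1|) / 2 + (|d1| + |d0|) / 2 := by
        rw [hdiff]
        refine (abs_add_le _ _).trans (add_le_add ?_ ?_)
        · rw [abs_mul, abs_of_nonneg hp0, abs_div, abs_of_pos (by norm_num : (0 : ℝ) < 2)]
          have h3 : |d2 + d1| ≤ |d2| + |d1| := abs_add_le _ _
          have h4 : 0 ≤ |d2 + d1| / 2 := by positivity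
          nlinarith
        · rw [abs_mul, abs_of_nonneg hq0, abs_div, abs_of_pos (by norm_num : (0 : ℝ) < 2)]
          have h3 : |d1 + d0| ≤ |d1| + |d0| := abs_add_le _ _
          have h4 : 0 ≤ |d1 + d0| / 2 := by positivity
          nlinarith
      linarith
  have h1 : ∀ k, |α 1 - β 1| ≤ |α (k + 1) - β (k + 1)| := by
    intro k
    induction k with
    | zero => exact le_rfl
    | succ k ih => exact ih.trans (hmono (k + 1))
  have h2 : Tendsto (fun k => |α (k + 1) - β (k + 1)|) atTop (𝓝 0) := by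
    have h3 := (hαl.sub hβl).abs
    rw [sub_zero, abs_zero] at h3
    exact h3.comp (tendsto_add_atTop_nat 1)
  have h3 : |α 1 - β 1| ≤ 0 := ge_of_tendsto' h2 h1
  have h4 : α 1 - β 1 = 0 := abs_eq_zero.mp (le_antisymm h3 (abs_nonneg _))
  linarith

/-- inverse of `h` -/
noncomputable def hinv (y : ℝ) : ℝ := (1 - √(1 - y)) ^ 2

theorem hinv_props {y : ℝ} (h0 : 0 ≤ y) (h1 : y ≤ 1) :
    0 ≤ hinv y ∧ hinv y ≤ y ^ 2 ∧ √(hinv y) = 1 - √(1 - y) ∧ h (hinv y) = y := by
  have s0 : 0 ≤ √(1 - y) := Real.sqrt_nonneg _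
  have s1 : √(1 - y) ≤ 1 := by
    rw [show (1 : ℝ) = √1 from Real.sqrt_one.symm]
    exact Real.sqrt_le_sqrt (by rw [Real.sqrt_one]; linarith)
  have s2 : √(1 - y) ^ 2 = 1 - y := Real.sq_sqrt (by linarith)
  have e1 : √(hinv y) = 1 - √(1 - y) := by
    unfold hinv
    exact Real.sqrt_sq (by linarith)
  refine ⟨sq_nonneg _, ?_, e1, ?_⟩
  · unfold hinv
    have h2 : 1 - √(1 - y) ≤ y := by nlinarith
    exact pow_le_pow_left₀ (by linarith) h2 2
  · unfold h
    rw [e1]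
    unfold hinv
    nlinarith

theorem sqrt_rec {a u v : ℝ} (hu0 : 0 ≤ u) (hu1 : u ≤ 1) (hv0 : 0 ≤ v) (hv1 : v ≤ 1)
    (h : a = (1 - (1 / 2) * (1 - u) ^ 2 - (1 / 2) * (1 - v) ^ 2) ^ 2) :
    √a = 1 - (1 / 2) * (1 - u) ^ 2 - (1 / 2) * (1 - v) ^ 2 := by
  rw [h]
  refine Real.sqrt_sq ?_
  nlinarith [mul_nonneg hu0 (by linarith : (0:ℝ) ≤ 2 - u), mul_nonneg hv0 (by linarith : (0:ℝ) ≤ 2 - v)]

theorem forward {a b c : ℝ} (hb0 : 0 ≤ b) (hb1 : b ≤ 1) (hc1 : c ≤ 1)
    (hab : b = h a) (hrec : √b = 1 - (1 / 2) * (1 - (a + b) / 2) ^ 2 - (1 / 2) * (1 - (b + c) / 2) ^ 2)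
    (ha0 : 0 ≤ a) : c = h b := by
  have e1 : (a + b) / 2 = √a := by rw [hab]; unfold h; ring
  have e2 : (1 - √a) ^ 2 = 1 - b := by
    have := Real.sq_sqrt ha0
    rw [hab]; unfold h
    nlinarith
  rw [e1, e2] at hrec
  have e3 := Real.sq_sqrt hb0
  have s1 : √b ≤ 1 := Real.sqrt_le_one.mpr hb1
  have e4 : (1 - (b + c) / 2) ^ 2 = (1 - √b) ^ 2 := by nlinarith
  have e5 : 1 - (b + c) / 2 = 1 - √b := by
    have h1 : 0 ≤ 1 - (b + c) / 2 := by linarith
    have h2 : 0 ≤ 1 - √b := by linarith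
    exact (pow_left_inj₀ h1 h2 (by norm_num)).mp e4
  unfold h
  linarith

/-- the main step along a lattice -/
theorem lattice (F : ℝ → ℝ) (hmono : Monotone F) (h0 : Tendsto F atBot (𝓝 0))
    (h1 : Tendsto F atTop (𝓝 1)) (hF : Psi F = F) (x : ℝ) (hx : F x ≤ 1 / 16) :
    F x = h (F (x - 2)) := by
  have hF0 : ∀ y, 0 ≤ F y := fun y => hmono.le_of_tendsto h0 y
  have hF1 : ∀ y, F y ≤ 1 := fun y => hmono.ge_of_tendsto h1 y
  have hrec : ∀ y, √(F y) = 1 - (1 / 2) * (1 - (F (y - 2) + F y) / 2) ^ 2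
      - (1 / 2) * (1 - (F y + F (y + 2)) / 2) ^ 2 := by
    intro y
    have hy := congrFun hF y
    rw [Psi_apply] at hy
    have a1 := hF0 (y - 2)
    have a2 := hF1 (y - 2)
    have a3 := hF0 y
    have a4 := hF1 y
    have a5 := hF0 (y + 2)
    have a6 := hF1 (y + 2)
    exact sqrt_rec (by linarith) (by linarith) (by linarith) (by linarith) hy.symm
  let α : ℕ → ℝ := fun k => F (x - 2 * k)
  let β : ℕ → ℝ := fun k => Nat.rec (F x) (fun _ y => hinv y) k
  have hβs : ∀ k, β (k + 1) = hinv (β k) := fun k => rfl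
  have hβ0 : β 0 = F x := rfl
  have hβ : ∀ k, 0 ≤ β k ∧ β k ≤ 1 / 16 ∧ β k ≤ (1 / 16) ^ k * 1 := by
    intro k
    induction k with
    | zero => rw [hβ0]; exact ⟨hF0 x, hx, by rw [pow_zero]; linarith⟩
    | succ k ih =>
      obtain ⟨i0, i1, i2⟩ := ih
      have h2 := hinv_props i0 (by linarith)
      rw [hβs]
      have h3 : β k ^ 2 ≤ (1 / 16) * β k := by nlinarith
      refine ⟨h2.1, by nlinarith [h2.2.1], ?_⟩
      rw [pow_succ]
      nlinarith [h2.2.1]
  have hcmp := compare α β (by simp [α, hβ0])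
    (fun k => ⟨hF0 _, (hmono (by
      have : (0 : ℝ) ≤ k := Nat.cast_nonneg k
      linarith)).trans hx⟩)
    (fun k => ⟨(hβ k).1, (hβ k).2.1⟩) ?_ ?_ ?_ ?_
  · have e1 : α 1 = F (x - 2) := by simp [α]
    rw [e1, show β 1 = hinv (F x) from rfl] at hcmp
    rw [hcmp]
    exact ((hinv_props (hF0 x) (hF1 x)).2.2.2).symm
  · intro k
    have h2 := hrec (x - 2 * ((k + 1 : ℕ) : ℝ))
    have e1 : x - 2 * ((k + 1 : ℕ) : ℝ) - 2 = x - 2 * ((k + 2 : ℕ) : ℝ) := by push_cast; ring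
    have e2 : x - 2 * ((k + 1 : ℕ) : ℝ) + 2 = x - 2 * (k : ℝ) := by push_cast; ring
    rw [e1, e2] at h2
    exact h2
  · intro k
    have i0 := hβ k
    have i1 := hβ (k + 1)
    have p1 := hinv_props i0.1 (by linarith [i0.2.1])
    have p2 := hinv_props i1.1 (by linarith [i1.2.1])
    have q1 : √(β (k + 1)) = 1 - √(1 - β k) := p1.2.2.1
    have q2 : √(β (k + 2)) = 1 - √(1 - β (k + 1)) := p2.2.2.1
    have r1 : h (β (k + 1)) = β k := p1.2.2.2
    have r2 : h (β (k + 2)) = β (k + 1) := p2.2.2.2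
    have i2 := hβ (k + 2)
    unfold h at r1 r2
    have u1 := Real.sq_sqrt i1.1
    have u2 := Real.sq_sqrt i2.1
    have e1 : (β (k + 2) + β (k + 1)) / 2 = √(β (k + 2)) := by linarith
    have e2 : (β (k + 1) + β k) / 2 = √(β (k + 1)) := by linarith
    rw [e1, e2]
    nlinarith
  · refine h0.comp ?_
    have h2 : Tendsto (fun k : ℕ => (2 : ℝ) * k - x) atTop atTop :=
      tendsto_atTop_add_const_right _ _ (tendsto_natCast_atTop_atTop.const_mul_atTop (by norm_num))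
    have h3 := tendsto_neg_atTop_atBot.comp h2
    refine h3.congr fun k => ?_
    simp
  · refine squeeze_zero (fun k => (hβ k).1) (fun k => (hβ k).2.2) ?_
    have := tendsto_pow_atTop_nhds_zero_of_lt_one (by norm_num : (0 : ℝ) ≤ 1 / 16) (by norm_num)
    simpa using this

/-- Every distribution function fixed by `Ψ` satisfies `F (x + 2) = h (F x)` for all `x`
(and conversely). -/
theorem result (F : ℝ → ℝ) (hmono : Monotone F) (h0 : Tendsto F atBot (𝓝 0))
    (h1 : Tendsto F atTop (𝓝 1)) :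
    Psi F = F ↔ ∀ x, F (x + 2) = h (F x) := by
  have hF0 : ∀ y, 0 ≤ F y := fun y => hmono.le_of_tendsto h0 y
  have hF1 : ∀ y, F y ≤ 1 := fun y => hmono.ge_of_tendsto h1 y
  constructor
  · intro hF x
    have hrec : ∀ y, √(F y) = 1 - (1 / 2) * (1 - (F (y - 2) + F y) / 2) ^ 2
        - (1 / 2) * (1 - (F y + F (y + 2)) / 2) ^ 2 := by
      intro y
      have hy := congrFun hF y
      rw [Psi_apply] at hy
      have a1 := hF0 (y - 2)
      have a2 := hF1 (y - 2)
      have a3 := hF0 y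
      have a4 := hF1 y
      have a5 := hF0 (y + 2)
      have a6 := hF1 (y + 2)
      exact sqrt_rec (by linarith) (by linarith) (by linarith) (by linarith) hy.symm
    -- find `k` with `F (x + 2 - 2 k) ≤ 1 / 16`
    have h2 : Tendsto (fun k : ℕ => x - 2 * (k : ℝ)) atTop atBot := by
      have h2 : Tendsto (fun k : ℕ => (2 : ℝ) * k - x) atTop atTop :=
        tendsto_atTop_add_const_right _ _ (tendsto_natCast_atTop_atTop.const_mul_atTop (by norm_num))
      have h3 := tendsto_neg_atTop_atBot.comp h2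
      refine h3.congr fun k => ?_
      simp
    obtain ⟨k, hk⟩ := ((h0.comp h2).eventually (Iio_mem_nhds (by norm_num : (0 : ℝ) < 1 / 16))).exists
    have hk' : F (x - 2 * (k : ℝ)) ≤ 1 / 16 := le_of_lt hk
    have base := lattice F hmono h0 h1 hF (x - 2 * (k : ℝ)) hk'
    -- go forward
    have hfor : ∀ j : ℕ, F (x - 2 * (k : ℝ) + 2 * j) = h (F (x - 2 * (k : ℝ) + 2 * j - 2)) := by
      intro j
      induction j with
      | zero => simpa using base
      | succ j ih =>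
        have e1 : x - 2 * (k : ℝ) + 2 * ((j + 1 : ℕ) : ℝ) = x - 2 * (k : ℝ) + 2 * j + 2 := by
          push_cast; ring
        have e2 : x - 2 * (k : ℝ) + 2 * ((j + 1 : ℕ) : ℝ) - 2 = x - 2 * (k : ℝ) + 2 * j := by
          push_cast; ring
        rw [e2, e1]
        exact forward (hF0 _) (hF1 _) (hF1 _) ih (hrec _) (hF0 _)
    have h3 := hfor (k + 1)
    have e1 : x - 2 * (k : ℝ) + 2 * ((k + 1 : ℕ) : ℝ) = x + 2 := by push_cast; ring
    rw [e1] at h3
    have e2 : x + 2 - 2 = x := by ring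
    rw [e2] at h3
    exact h3
  · intro hh
    funext x
    rw [Psi_apply]
    have r1 := hh x
    have r0 := hh (x - 2)
    have e : x - 2 + 2 = x := by ring
    rw [e] at r0
    unfold h at r1 r0
    have u0 := Real.sq_sqrt (hF0 (x - 2))
    have u1 := Real.sq_sqrt (hF0 x)
    have e1 : (F (x - 2) + F x) / 2 = √(F (x - 2)) := by linarith
    have e2 : (F x + F (x + 2)) / 2 = √(F x) := by linarith
    rw [e1, e2]
    have e3 : 1 - (1 / 2) * (1 - √(F (x - 2))) ^ 2 - (1 / 2) * (1 - √(F x)) ^ 2 = √(F x) := by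
      nlinarith
    rw [e3, u1]

end Pool.Agent.Results.MP_e9a5a5_pr.AllSolutions
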